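import Pool.Agent.H596R2.TM.Notions

/-!
# `NP`, many-one completeness and self-reducibility

Languages are functions `List Bool → Bool`; polynomial time is that of Mathlib's machines
(`Pool.Agent.H596R2.TM.PolyTime`).
-/

namespace Pool.Agent.H596R2.SR

open Pool.Agent.H596R2.TM

/-- `L` belongs to `NP`: membership has certificates of polynomial length which are checked in
polynomial time. -/
def InNP (L : List Bool → Bool) : Prop :=
  ∃ V : List Bool → List Bool, PolyTime V ∧ ∃ c : ℕ, ∀ x, L x = true ↔
    ∃ w : List Bool, w.length ≤ x.length ^ c + c ∧ V (pair x w) = [true]

/-- `A` reduces to `B` by a polynomial-time many-one (Karp) reduction. -/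
def KarpReduces (A B : List Bool → Bool) : Prop :=
  ∃ f : List Bool → List Bool, PolyTime f ∧ ∀ x, A x = B (f x)

/-- `A` is `NP`-complete under Karp reductions. -/
def NPComplete (A : List Bool → Bool) : Prop := InNP A ∧ ∀ L, InNP L → KarpReduces L A

/-- The run, for at most `k` rounds, of the deterministic oracle procedure `s` with oracle `B` on
input `x`, when the answers to the queries asked so far are `a`.  In each round `s (pair x a)` is
computed.  If it is `true :: y`, then the string `y` is queried; here a query which is not shorter
than the input makes the run fail.  Otherwise the procedure halts, and it accepts if and only if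
the value is `[false, true]`.  The result is `none` if the procedure has not halted within `k`
rounds or if it asks a query which is not shorter than `x`. -/
def run (B : List Bool → Bool) (s : List Bool → List Bool) (x : List Bool) :
    ℕ → List Bool → Option Bool
  | 0, _ => none
  | k + 1, a =>
    match s (pair x a) with
    | true :: y => if y.length < x.length then run B s x k (a ++ [B y]) else none
    | v => some (v == [false, true])

/-- `A` is self-reducible: a deterministic polynomial-time oracle procedure with oracle `A`, all
of whose queries are shorter than the input, decides `A`. -/
def SelfReducible (A : List Bool → Bool) : Prop :=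
  ∃ s : List Bool → List Bool, PolyTime s ∧
    ∃ c : ℕ, ∀ x, run A s x (x.length ^ c + c) [] = some (A x)

end Pool.Agent.H596R2.SR
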