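import Pool.Agent.H596R2.SR.Tow

/-!
An `NP`-complete language all of whose members have a length of the form `2 ^ 2 ^ i`.
-/

namespace Pool.Agent.H596R2.SR

open Pool.Agent.H583R2 Pool.Agent.H596R2.TM Turing

/-- the four parts of the instance, for `x = 1^k 0 1^e 0 1^s 0 1^t 0 y` -/
def eX (x : List Bool) : ℕ := dE (rs x)
def sX (x : List Bool) : ℕ := dE (rs (rs x))
def tX (x : List Bool) : ℕ := dE (rs (rs (rs x)))
def yX (x : List Bool) : List Bool := rs (rs (rs (rs x)))

def chk (x w : List Bool) : Bool :=
  tow x.length && (decide (w.length ≤ sX x) &&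
    (gv (mE (eX x)) (pair (yX x) w) (tX x) == [true]))

def VA (v : List Bool) : List Bool := [chk (spl v).1 (spl v).2]

/-- the language -/
noncomputable def AT (x : List Bool) : Bool :=
  @decide (∃ w : List Bool, chk x w = true) (Classical.propDecidable _)

theorem AT_iff (x : List Bool) : AT x = true ↔ ∃ w : List Bool, chk x w = true := by
  unfold AT; exact @decide_eq_true_iff _ (Classical.propDecidable _)

theorem AT_tow {x : List Bool} (h : tow x.length = false) : AT x = false := by
  rw [Bool.eq_false_iff]
  intro hc
  obtain ⟨w, hw⟩ := (AT_iff x).1 hc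
  unfold chk at hw
  rw [h] at hw
  simp at hw

theorem dE_le_length (z : List Bool) : dE z ≤ z.length := by
  have key : ∀ z : List Bool, (stripT z).1 ≤ z.length := by
    intro z
    induction z with
    | nil => simp [stripT]
    | cons b z ih =>
      cases b
      · simp [stripT]
      · simp [stripT]; omega
  exact key z

theorem rs_length_le (z : List Bool) : (rs z).length ≤ z.length := by
  unfold rs; rw [List.length_drop]; omega

theorem sX_le (x : List Bool) : sX x ≤ x.length :=
  (dE_le_length _).trans ((rs_length_le _).trans (rs_length_le _))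

theorem pf_VA : PF VA := by
  have hv : PF (fun v : List Bool => spl v) := PF.spl PF.id
  have h1 : PF (fun v : List Bool => (spl v).1) := PF.fst' hv
  have h2 : PF (fun v : List Bool => (spl v).2) := PF.snd' hv
  have r1 := pf_rs h1
  have r2 := pf_rs r1
  have r3 := pf_rs r2
  have r4 := pf_rs r3
  refine PF.cons (PF.and (pf_tow (PF.length h1)) (PF.and (PF.le (PF.length h2) (PF.dE r2))
    (PF.beqStr (pf_gv (PF.mE (PF.dE r1)) (pf_pair r4 h2) (PF.dE r3)) (PF.const [true]))))
    (PF.const [])

theorem AT_np : InNP AT := by
  refine ⟨VA, polyTime_of_pf pf_VA, 1, ?_⟩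
  intro x
  rw [AT_iff]
  constructor
  · rintro ⟨w, hw⟩
    refine ⟨w, ?_, ?_⟩
    · have h := hw
      unfold chk at h
      simp only [Bool.and_eq_true, decide_eq_true_eq] at h
      have := sX_le x
      rw [pow_one]
      omega
    · unfold VA; rw [spl_pair, hw]
  · rintro ⟨w, -, hw⟩
    refine ⟨w, ?_⟩
    unfold VA at hw
    rw [spl_pair] at hw
    simpa using hw

/-- padding -/
def pad (z : List Bool) : List Bool :=
  List.replicate (up (z.length + 1) - (z.length + 1)) true ++ false :: z

theorem pad_length (z : List Bool) : (pad z).length = up (z.length + 1) := by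
  unfold pad
  have := le_up (z.length + 1)
  simp
  omega

theorem rs_pad (z : List Bool) : rs (pad z) = z := rs_rep _ _

def inst (e s t : ℕ) (y : List Bool) : List Bool :=
  List.replicate e true ++ false :: (List.replicate s true ++ false ::
    (List.replicate t true ++ false :: y))

theorem chk_pad (e s t : ℕ) (y w : List Bool) : chk (pad (inst e s t y)) w =
    (decide (w.length ≤ s) && (gv (mE e) (pair y w) t == [true])) := by
  unfold chk eX sX tX yX
  rw [pad_length, tow_up, rs_pad]
  unfold inst
  rw [dE_rep, rs_rep, dE_rep, rs_rep, dE_rep, rs_rep]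
  simp

theorem AT_hard (L : List Bool → Bool) (hL : InNP L) : KarpReduces L AT := by
  obtain ⟨V, ⟨c, M, hM⟩, c0, hV⟩ := hL
  obtain ⟨cd, m, hcd⟩ := code_of_tm M
  obtain ⟨e, -, he⟩ := exists_mE cd 0
  refine ⟨fun x => pad (inst e (x.length ^ c0 + c0)
    (m * ((2 * x.length + 1 + (x.length ^ c0 + c0)) ^ c + c)) x), ?_, ?_⟩
  · apply polyTime_of_pf
    have hn : PF (fun x : List Bool => x.length) := PF.length PF.id
    have hs : PF (fun x : List Bool => x.length ^ c0 + c0) :=
      PF.add (pf_powConst hn c0) (PF.const c0)
    have ht : PF (fun x : List Bool =>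
        m * ((2 * x.length + 1 + (x.length ^ c0 + c0)) ^ c + c)) :=
      PF.mul (PF.const m) (PF.add (pf_powConst (PF.add (PF.add (PF.mul (PF.const 2) hn)
        (PF.const 1)) hs) c) (PF.const c))
    have hi : PF (fun x : List Bool => inst e (x.length ^ c0 + c0)
        (m * ((2 * x.length + 1 + (x.length ^ c0 + c0)) ^ c + c)) x) :=
      PF.append (PF.const _) (PF.cons (PF.const false) (PF.append
        (PF.replicate hs (PF.const true)) (PF.cons (PF.const false) (PF.append
        (PF.replicate ht (PF.const true)) (PF.cons (PF.const false) PF.id)))))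
    have hl := PF.succ (PF.length hi)
    exact PF.append (PF.replicate (PF.sub (pf_up hl) hl) (PF.const true))
      (PF.cons (PF.const false) hi)
  · intro x
    rw [Bool.eq_iff_iff, AT_iff, hV x]
    apply exists_congr
    intro w
    rw [chk_pad, he, Bool.and_eq_true, decide_eq_true_eq, beq_iff_eq]
    apply and_congr_right
    intro hw
    unfold gv
    rw [hcd]
    · rfl
    · refine Nat.mul_le_mul_left m ((hM _).trans ?_)
      refine Nat.add_le_add_right (Nat.pow_le_pow_left ?_ c) c
      rw [pair_length]
      omega

theorem AT_complete : NPComplete AT := ⟨AT_np, AT_hard⟩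

end Pool.Agent.H596R2.SR
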