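import Pool.Agent.H596R2.SR.Lang

/-!
A self-reducible language whose members have lengths `2 ^ 2 ^ i` is decided in polynomial time.
-/

namespace Pool.Agent.H596R2.SR

open Pool.Agent.H583R2 Pool.Agent.H596R2.TM Turing

/-- a frame: input and answers -/
abbrev Fr := List Bool × List Bool
/-- stack of frames and the last result -/
abbrev SS := List Fr × Bool

def ret (r : List Fr) (b : Bool) : SS :=
  if r.isEmpty then ([], b)
  else (((r.headD ([], [])).1, (r.headD ([], [])).2 ++ [b]) :: r.tail, b)

def body (q : List Bool) (p : Fr) (r : List Fr) : SS :=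
  if q.headD false then
    (if decide (q.tail.length < p.1.length) && tow q.tail.length then
      ((q.tail, []) :: p :: r, false)
    else ((p.1, p.2 ++ [false]) :: r, false))
  else ret r (q == [false, true])

def stp (s : List Bool → List Bool) (st : SS) : SS :=
  if st.1.isEmpty then st
  else body (s (pair (st.1.headD ([], [])).1 (st.1.headD ([], [])).2))
    (st.1.headD ([], [])) st.1.tail

theorem stp_cons (s : List Bool → List Bool) (y a : List Bool) (r : List Fr) (b : Bool) :
    stp s ((y, a) :: r, b) = body (s (pair y a)) (y, a) r := rfl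

theorem ret_nil (b : Bool) : ret [] b = ([], b) := rfl
theorem ret_cons (y a : List Bool) (r : List Fr) (b : Bool) :
    ret ((y, a) :: r) b = ((y, a ++ [b]) :: r, b) := rfl

theorem stp_fix (s : List Bool → List Bool) (b : Bool) (k : ℕ) :
    (stp s)^[k] ([], b) = ([], b) := by
  induction k with
  | zero => rfl
  | succ k ih => rw [Function.iterate_succ_apply, show stp s ([], b) = ([], b) from rfl, ih]

section
variable {A : List Bool → Bool} {s : List Bool → List Bool}

theorem sim_run (hA : ∀ z, tow z.length = false → A z = false) {y : List Bool} {D : ℕ}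
    (hD : 1 ≤ D)
    (h : ∀ z : List Bool, z.length < y.length → tow z.length = true → ∀ r b,
      ∃ t, t + 1 ≤ D ∧ (stp s)^[t] ((z, []) :: r, b) = ret r (A z)) :
    ∀ k a v, run A s y k a = some v → ∀ r b,
      ∃ t, t ≤ k * D ∧ (stp s)^[t] ((y, a) :: r, b) = ret r v := by
  intro k
  induction k with
  | zero => intro a v hv; exact absurd hv (by simp [run])
  | succ k ih =>
    intro a v hv r b
    rcases hq : s (pair y a) with _ | ⟨_ | _, z⟩
    · have hv' : v = false := by
        unfold run at hv
        rw [hq] at hv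
        simpa using hv.symm
      refine ⟨1, by nlinarith, ?_⟩
      rw [Function.iterate_one, stp_cons, hq, hv']
      rfl
    · have hv' : (false :: z == [false, true]) = v := by
        unfold run at hv
        rw [hq] at hv
        simpa using hv
      refine ⟨1, by nlinarith, ?_⟩
      rw [Function.iterate_one, stp_cons, hq, ← hv']
      rfl
    · unfold run at hv
      rw [hq] at hv
      simp only at hv
      by_cases hz : z.length < y.length
      · rw [if_pos hz] at hv
        by_cases ht : tow z.length = true
        · obtain ⟨t1, h1, h2⟩ := h z hz ht ((y, a) :: r) false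
          obtain ⟨t2, h3, h4⟩ := ih _ v hv r (A z)
          refine ⟨t2 + (t1 + 1), by rw [Nat.add_mul]; omega, ?_⟩
          rw [Function.iterate_add_apply, Function.iterate_add_apply, Function.iterate_one,
            stp_cons, hq]
          have e : body (true :: z) (y, a) r = ((z, []) :: (y, a) :: r, false) := by
            unfold body
            simp [hz, ht]
          rw [e, h2, ret_cons, h4]
        · rw [Bool.not_eq_true] at ht
          rw [hA z ht] at hv
          obtain ⟨t2, h3, h4⟩ := ih _ v hv r false
          refine ⟨t2 + 1, by rw [Nat.add_mul]; omega, ?_⟩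
          rw [Function.iterate_add_apply, Function.iterate_one, stp_cons, hq]
          have e : body (true :: z) (y, a) r = ((y, a ++ [false]) :: r, false) := by
            unfold body
            simp [ht]
          rw [e, h4]
      · rw [if_neg hz] at hv
        exact absurd hv (by simp)

theorem bound1 {m n c : ℕ} (hm : 2 ≤ m) (h : m * m ≤ n) :
    m ^ (4 * c + 1) + 1 ≤ n ^ (2 * c + 1) := by
  have h1 : m ^ (4 * c + 1) + 1 ≤ m ^ (4 * c + 2) := by
    have h2 : 1 ≤ m ^ (4 * c + 1) := Nat.one_le_pow _ _ (by omega)
    rw [show 4 * c + 2 = 4 * c + 1 + 1 from rfl, pow_succ m (4 * c + 1)]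
    have h3 := Nat.mul_le_mul_left (m ^ (4 * c + 1)) hm
    omega
  have h2 : m ^ (4 * c + 2) = (m * m) ^ (2 * c + 1) := by
    rw [← sq, ← pow_mul]; congr 1; ring
  rw [h2] at h1
  exact h1.trans (Nat.pow_le_pow_left h _)

theorem bound2 {n c : ℕ} (hn : 2 ≤ n) : (n ^ c + c) * n ^ (2 * c + 1) ≤ n ^ (4 * c + 1) := by
  have h1 : n ^ c + c ≤ n ^ (2 * c) := by
    have h2 : c + 1 ≤ 2 ^ c := Nat.lt_two_pow_self
    have h3 : 2 ^ c ≤ n ^ c := Nat.pow_le_pow_left hn c
    have h4 : 1 ≤ n ^ c := Nat.one_le_pow _ _ (by omega)
    rw [two_mul, pow_add]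
    nlinarith [Nat.mul_le_mul_left (n ^ c) (show c + 1 ≤ n ^ c by omega)]
  calc (n ^ c + c) * n ^ (2 * c + 1) ≤ n ^ (2 * c) * n ^ (2 * c + 1) := Nat.mul_le_mul_right _ h1
    _ = n ^ (4 * c + 1) := by rw [← pow_add]; congr 1; ring

theorem sim_all (hA : ∀ z, tow z.length = false → A z = false) {c : ℕ}
    (hr : ∀ x, run A s x (x.length ^ c + c) [] = some (A x)) :
    ∀ n, ∀ y : List Bool, y.length = n → tow n = true → ∀ r b,
      ∃ t, t ≤ n ^ (4 * c + 1) ∧ (stp s)^[t] ((y, []) :: r, b) = ret r (A y) := by
  intro n
  induction n using Nat.strong_induction_on with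
  | _ n ih =>
    intro y hy hn r b
    have h2n := two_le_tow hn
    have hD : 1 ≤ n ^ (2 * c + 1) := Nat.one_le_pow _ _ (by omega)
    obtain ⟨t, h1, h2⟩ := sim_run (A := A) (s := s) hA (y := y) hD (by
      intro z hz ht r b
      obtain ⟨t, h1, h2⟩ := ih z.length (by omega) z rfl ht r b
      refine ⟨t, ?_, h2⟩
      have h3 := tow_sq ht hn (by omega)
      exact (Nat.add_le_add_right h1 1).trans (bound1 (two_le_tow ht) h3)) _ _ _ (hr y) r b
    refine ⟨t, h1.trans ?_, h2⟩
    rw [hy]
    exact bound2 h2n

/-! ### complexity -/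

section
variable {α : Type} [TEnc α]

theorem pf_ret {r : α → List Fr} {b : α → Bool} (hr : PF r) (hb : PF b) :
    PF (fun a => ret (r a) (b a)) := by
  have hh := PF.headD hr (PF.const (([], []) : Fr))
  exact PF.ite (PF.isEmpty hr) (PF.pair (PF.const []) hb)
    (PF.pair (PF.cons (PF.pair (PF.fst' hh) (PF.append (PF.snd' hh)
      (PF.cons hb (PF.const [])))) (PF.tail hr)) hb)

theorem pf_body {q : α → List Bool} {p : α → Fr} {r : α → List Fr} (hq : PF q) (hp : PF p)
    (hr : PF r) : PF (fun a => body (q a) (p a) (r a)) := by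
  have ht := PF.tail hq
  have hl := PF.length ht
  exact PF.ite (PF.headD hq (PF.const false))
    (PF.ite (PF.and (PF.lt hl (PF.length (PF.fst' hp))) (pf_tow hl))
      (PF.pair (PF.cons (PF.pair ht (PF.const [])) (PF.cons hp hr)) (PF.const false))
      (PF.pair (PF.cons (PF.pair (PF.fst' hp) (PF.append (PF.snd' hp)
        (PF.const [false]))) hr) (PF.const false)))
    (pf_ret hr (PF.beqStr hq (PF.const [false, true])))

theorem pf_stp (hs : PF s) : PF (stp s) := by
  have h1 : PF (fun st : SS => st.1) := PF.fst
  have hh := PF.headD h1 (PF.const (([], []) : Fr))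
  exact PF.ite (PF.isEmpty h1) PF.id
    (pf_body (hs.comp (pf_pair (PF.fst' hh) (PF.snd' hh))) hh (PF.tail h1))

end

/-- frames are bounded -/
def Inv (n j : ℕ) (st : SS) : Prop :=
  st.1.length ≤ j + 1 ∧ ∀ p ∈ st.1, p.1.length ≤ n ∧ p.2.length ≤ j

theorem Inv.stp {n j : ℕ} {st : SS} (h : Inv n j st) : Inv n (j + 1) (stp s st) := by
  obtain ⟨l, b⟩ := st
  obtain ⟨h1, h2⟩ := h
  cases l with
  | nil => exact ⟨by simp [SR.stp], by simp [SR.stp]⟩
  | cons p r =>
    obtain ⟨y, a⟩ := p
    rw [stp_cons]
    simp only [List.length_cons] at h1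
    have h3 := h2 (y, a) (by simp)
    have h4 : ∀ p ∈ r, p.1.length ≤ n ∧ p.2.length ≤ j := fun p hp => h2 p (by simp [hp])
    simp only at h3
    generalize s (pair y a) = q
    unfold body
    split
    · split
      · rename_i h5
        simp only [Bool.and_eq_true, decide_eq_true_eq] at h5
        refine ⟨by simp only [List.length_cons]; omega, ?_⟩
        intro p hp
        simp only [List.mem_cons] at hp
        rcases hp with rfl | rfl | hp
        · exact ⟨by simp only; omega, by simp⟩
        · exact ⟨h3.1, by simp only; omega⟩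
        · have := h4 p hp; exact ⟨this.1, by omega⟩
      · refine ⟨by simp only [List.length_cons]; omega, ?_⟩
        intro p hp
        simp only [List.mem_cons] at hp
        rcases hp with rfl | hp
        · exact ⟨h3.1, by simp only [List.length_append, List.length_singleton]; omega⟩
        · have := h4 p hp; exact ⟨this.1, by omega⟩
    · cases r with
      | nil => exact ⟨by simp [ret], by simp [ret]⟩
      | cons p' r' =>
        obtain ⟨y', a'⟩ := p'
        rw [ret_cons]
        have h6 := h4 (y', a') (by simp)
        simp only at h6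
        simp only [List.length_cons] at h1
        refine ⟨by simp only [List.length_cons]; omega, ?_⟩
        intro p hp
        simp only [List.mem_cons] at hp
        rcases hp with rfl | hp
        · exact ⟨h6.1, by simp only [List.length_append, List.length_singleton]; omega⟩
        · have := h4 p (by simp [hp]); exact ⟨this.1, by omega⟩

theorem inv_iter (x : List Bool) (j : ℕ) : Inv x.length j ((stp s)^[j] ([(x, [])], false)) := by
  induction j with
  | zero => exact ⟨by simp, by simp⟩
  | succ j ih => rw [Function.iterate_succ_apply']; exact ih.stp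

theorem Inv.sz_le {n j : ℕ} {st : SS} (h : Inv n j st) :
    sz st ≤ (j + 1) * (4 * n + 4 * j + 5) + 6 := by
  obtain ⟨h1, h2⟩ := h
  have h3 := sz_list_le st.1 (4 * n + 4 * j + 3) (by
    intro p hp
    obtain ⟨h5, h6⟩ := h2 p hp
    rw [sz_prod]
    have := sz_str_le p.1
    have := sz_str_le p.2
    omega)
  rw [sz_prod]
  have h4 := sz_bool st.2
  have h5 := Nat.mul_le_mul_right (4 * n + 4 * j + 5) h1
  nlinarith

theorem inP_of_selfReducible (hA : ∀ z, tow z.length = false → A z = false)
    (h : SelfReducible A) : InP A := by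
  obtain ⟨s, hs, c, hr⟩ := h
  have hs' := pf_of_polyTime hs
  apply inP_of_pf
  have hn : PF (fun x : List Bool => x.length) := PF.length PF.id
  have hN : PF (fun x : List Bool => x.length ^ (4 * c + 1)) := pf_powConst hn _
  have hb : PB (fun x : List Bool => (x.length ^ (4 * c + 1) + 1) *
      (4 * x.length + 4 * x.length ^ (4 * c + 1) + 5) + 6) :=
    pb_of_sz (PF.add (PF.mul (PF.add hN (PF.const 1)) (PF.add (PF.add
      (PF.mul (PF.const 4) hn) (PF.mul (PF.const 4) hN)) (PF.const 5))) (PF.const 6)).size
  have hit : PF (fun x : List Bool =>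
      (stp s)^[x.length ^ (4 * c + 1)] ([(x, [])], false)) := by
    refine PF.iterate (n := fun x : List Bool => x.length ^ (4 * c + 1))
      (s := fun x : List Bool => (([(x, [])], false) : SS)) (f := fun _ st => stp s st) hN
      (PF.pair (PF.cons (PF.pair PF.id (PF.const [])) (PF.const [])) (PF.const false))
      ((pf_stp hs').comp PF.snd) hb ?_
    intro x j hj
    refine (inv_iter x j).sz_le.trans ?_
    have h1 : (j + 1) * (4 * x.length + 4 * j + 5) ≤ (x.length ^ (4 * c + 1) + 1) *
      (4 * x.length + 4 * x.length ^ (4 * c + 1) + 5) := Nat.mul_le_mul (by omega) (by omega)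
    omega
  refine (PF.and (pf_tow hn) (PF.snd' hit)).congr ?_
  intro x
  rcases ht : tow x.length with _ | _
  · rw [hA x ht]; rfl
  · obtain ⟨t, h1, h2⟩ := sim_all (A := A) (s := s) hA hr x.length x rfl ht [] false
    obtain ⟨d, hd⟩ := Nat.exists_eq_add_of_le h1
    rw [hd, Nat.add_comm t d, Function.iterate_add_apply, h2, ret_nil, stp_fix]
    rfl

end

end Pool.Agent.H596R2.SR
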