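import Pool.Agent.H596R2.TM.Exp
import Pool.Agent.H596R2.SR.Defs

/-!
The numbers `2 ^ 2 ^ i`.
-/

namespace Pool.Agent.H596R2.SR

open Pool.Agent.H583R2 Pool.Agent.H596R2.TM Turing

def ct (i : ℕ) : ℕ := 2 ^ 2 ^ i

theorem ct_succ (i : ℕ) : ct (i + 1) = ct i * ct i := by
  unfold ct; rw [pow_succ, pow_mul, sq]

theorem two_le_ct (i : ℕ) : 2 ≤ ct i := by
  unfold ct
  calc 2 = 2 ^ 1 := rfl
    _ ≤ _ := Nat.pow_le_pow_right (by norm_num) (Nat.one_le_two_pow)

theorem ct_lt {i j : ℕ} (h : i < j) : ct i < ct j :=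
  Nat.pow_lt_pow_right (by norm_num) (Nat.pow_lt_pow_right (by norm_num) h)

theorem ct_le {i j : ℕ} (h : i ≤ j) : ct i ≤ ct j :=
  Nat.pow_le_pow_right (by norm_num) (Nat.pow_le_pow_right (by norm_num) h)

theorem lt_ct (i : ℕ) : i < ct i :=
  Nat.lt_two_pow_self.trans Nat.lt_two_pow_self

def upStep (m v : ℕ) : ℕ := if decide (v < m) then v * v else v
/-- the least number `2 ^ 2 ^ i` above `m` -/
def up (m : ℕ) : ℕ := (upStep m)^[m] 2
def tow (n : ℕ) : Bool := decide (up n = n)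

theorem upStep_iter (m k : ℕ) : ∃ i, i ≤ k ∧ (upStep m)^[k] 2 = ct i ∧ (∀ j < i, ct j < m) ∧
    (m ≤ ct i ∨ i = k) := by
  induction k with
  | zero => exact ⟨0, le_refl _, rfl, by omega, Or.inr rfl⟩
  | succ k ih =>
    obtain ⟨i, h1, h2, h3, h4⟩ := ih
    rw [Function.iterate_succ_apply', h2]
    unfold upStep
    by_cases h : ct i < m
    · refine ⟨i + 1, by omega, ?_, ?_, ?_⟩
      · rw [ct_succ]; simp [h]
      · intro j hj
        rcases Nat.lt_succ_iff_lt_or_eq.1 hj with h5 | h5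
        · exact h3 j h5
        · rw [h5]; exact h
      · rcases h4 with h4 | h4
        · omega
        · right; omega
    · refine ⟨i, by omega, by simp [h], h3, Or.inl (by omega)⟩

theorem up_spec (m : ℕ) : ∃ i, up m = ct i ∧ (∀ j < i, ct j < m) ∧ m ≤ ct i := by
  obtain ⟨i, h1, h2, h3, h4⟩ := upStep_iter m m
  refine ⟨i, h2, h3, ?_⟩
  rcases h4 with h4 | h4
  · exact h4
  · have := lt_ct m
    rw [h4]; omega

theorem up_ct (i : ℕ) : up (ct i) = ct i := by
  obtain ⟨j, h1, h2, h3⟩ := up_spec (ct i)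
  rw [h1]
  rcases Nat.lt_trichotomy j i with h | h | h
  · have := ct_lt h; omega
  · rw [h]
  · have := h2 i h; omega

theorem tow_iff (n : ℕ) : tow n = true ↔ ∃ i, n = ct i := by
  unfold tow
  rw [decide_eq_true_eq]
  constructor
  · intro h
    obtain ⟨i, h1, -⟩ := up_spec n
    exact ⟨i, by rw [← h1, h]⟩
  · rintro ⟨i, rfl⟩
    exact up_ct i

theorem tow_up (m : ℕ) : tow (up m) = true := by
  obtain ⟨i, h1, -⟩ := up_spec m
  exact (tow_iff _).2 ⟨i, h1⟩

theorem le_up (m : ℕ) : m ≤ up m := by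
  obtain ⟨i, h1, -, h3⟩ := up_spec m
  omega

theorem iter_le (m k : ℕ) : (upStep m)^[k] 2 ≤ m * m + 2 := by
  obtain ⟨i, h1, h2, h3, h4⟩ := upStep_iter m k
  rw [h2]
  cases i with
  | zero => have : ct 0 = 2 := rfl
            omega
  | succ i =>
    rw [ct_succ]
    have := h3 i (by omega)
    nlinarith

theorem tow_sq {a b : ℕ} (ha : tow a = true) (hb : tow b = true) (h : a < b) : a * a ≤ b := by
  obtain ⟨i, rfl⟩ := (tow_iff _).1 ha
  obtain ⟨j, rfl⟩ := (tow_iff _).1 hb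
  rw [← ct_succ]
  apply ct_le
  by_contra hc
  have := ct_le (show j ≤ i by omega)
  omega

theorem two_le_tow {a : ℕ} (ha : tow a = true) : 2 ≤ a := by
  obtain ⟨i, rfl⟩ := (tow_iff _).1 ha
  exact two_le_ct i

section
variable {α : Type} [TEnc α]

theorem pf_up {m : α → ℕ} (hm : PF m) : PF (fun a => up (m a)) := by
  have hb : PB (fun a => 2 * (m a * m a + 2) + 1) :=
    pb_of_sz (PF.add (PF.mul (PF.const 2) (PF.add (PF.mul hm hm) (PF.const 2))) (PF.const 1)).size
  refine PF.iterate (n := m) (s := fun _ => 2) (f := fun a v => upStep (m a) v) hm (PF.const 2) ?_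
    hb ?_
  · exact PF.ite (PF.lt PF.snd (hm.comp PF.fst)) (PF.mul PF.snd PF.snd) PF.snd
  · intro a j _
    rw [sz_nat]
    have := iter_le (m a) j
    exact Nat.add_le_add_right (Nat.mul_le_mul_left 2 this) 1

theorem pf_tow {m : α → ℕ} (hm : PF m) : PF (fun a => tow (m a)) := PF.natEq (pf_up hm) hm

end

/-! ### polynomial time -/

theorem pf_of_polyTime {f : List Bool → List Bool} (h : PolyTime f) : PF f := by
  obtain ⟨c, M, hM⟩ := h
  obtain ⟨cd, m, hcd⟩ := code_of_tm M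
  refine (pf_gv (c := fun _ => cd) (x := fun x => x) (f := fun x => m * (x.length ^ c + c))
    (PF.const cd) PF.id (PF.mul (PF.const m) (PF.add (pf_powConst (PF.length PF.id) c)
      (PF.const c)))).congr ?_
  intro x
  unfold gv
  rw [hcd x _ (Nat.mul_le_mul_left m (hM _))]
  rfl

theorem pf_of_inP {S : List Bool → Bool} (h : InP S) : PF S := by
  obtain ⟨c, M, hM⟩ := h
  obtain ⟨cd, m, hcd⟩ := code_of_tm M
  refine (PF.headD (pf_gv (c := fun _ => cd) (x := fun x => x)
    (f := fun x => m * (x.length ^ c + c))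
    (PF.const cd) PF.id (PF.mul (PF.const m) (PF.add (pf_powConst (PF.length PF.id) c)
      (PF.const c)))) (PF.const false)).congr ?_
  intro x
  unfold gv
  rw [hcd x _ (Nat.mul_le_mul_left m (hM _))]
  rfl

theorem polyTime_of_pf {f : List Bool → List Bool} (h : PF f) : PolyTime f := tm_of_PF h

theorem inP_of_pf {S : List Bool → Bool} (h : PF S) : InP S := by
  obtain ⟨k, M, hM⟩ := tm_poly (f := S) encBit (PF.cons h (PF.const []))
  obtain ⟨c, hc⟩ := poly_norm k k
  exact ⟨c, M, fun n => (hM n).trans (hc n)⟩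

end Pool.Agent.H596R2.SR
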